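import Pool.Agent.V11219.TowLoc

/-!
# The Tate conjecture for abelian varieties dominated by products of curves with places of different
kinds

Let `W` be a Weil cohomology theory with algebraically closed coefficients (`ℓ`-adic cohomology with
coefficients in the algebraic closure of `ℚ_ℓ`) on a class of smooth proper varieties over the algebraic
closure of a number field `k`, and let `Γ` be a group which acts on the cohomology of the varieties `X_i`
and `Z` with the formal properties of the Galois group of `k` (`χ` is the action on the Tate twists). Let
`C` be a system of classes (`ClassSystem`): for every variety `A` a space `C(A)` of cohomology classes
containing the classes of algebraic cycles and stable under products, pull-backs and push-forwards. In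
this problem `C(A)` is the space spanned by the classes of algebraic cycles, and then `TateIn χ C A` is the
Tate conjecture for `A`, in all codimensions: all classes on which a subgroup of finite index of `Γ` acts
by a power of `χ` are combinations of algebraic classes.

Let `X_i` be varieties of odd dimension for which numerical and homological equivalence coincide (in
this problem: curves), whose transcendental cohomology `T_i` (the orthogonal complement of the
algebraic classes, for curves `T_i = H^1(X_i)`) is concentrated in the middle degree and irreducible
under all subgroups of finite index of `Γ`. For every `i` let there be one element `g_i` of `Γ`, with
`χ (g_i) = 1`, of one of the following kinds (different `i` may be of different kinds):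

* `g_i` acts trivially on the cohomology of `Z` and of the `X_j`, `j ≠ i`, and `(g_i - 1) ^ 2 = 0` on
  `T_i`, where the rank of `g_i - 1` is arbitrary, but the rank and the multiplicities of the nonzero
  eigenvalues of the operators `(g_i - 1) (g' - 1)`, for `g'` with the same properties (for instance
  conjugates of `g_i`), have no common prime factor, or one of them is two. Example: inertia at a
  place where `X_i` has stable reduction, with a toric part of arbitrary rank, and `Z` and the other
  `X_j` have good reduction;
* `g_i` acts on `T_i` with finite order and its eigenvalues on `T_i` are isolated with respect to a
  group `Λ_i` of numbers which contains all eigenvalues of `g_i` on the cohomology of `Z` and of the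
  `X_j`, `j ≠ i`, and some element of `Γ` has two eigenvalues on `T_i` whose quotient is not a root
  of unity. Example: inertia at a place where `X_i` has potentially good reduction, acting by a
  cyclic group of suitable order, and `Z` and the other `X_j` have semistable reduction (`Λ_i = 1`).

Let `T` be a product of `Z` with arbitrary powers of the `X_i`. Then the following are **equivalent**: the
Tate conjecture for **all** varieties `B` which are dominated by `T` (`AllDominated`: there is a morphism
`g` from `T` to `B`, compatible with the actions, and a combination of algebraic classes with direct
image `1` under `g`); the Tate conjecture for `Z`.

For abelian varieties: let the `X_i` be curves with rational points and `Z` an abelian variety. All the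
abelian varieties `B` which are quotients of products of powers of the Jacobians `J(X_i)` with `Z` are
dominated by such `T`. So the Tate conjecture for all of them, in all codimensions, holds if and only if
it holds for `Z` (nothing is assumed on `Z`, which may for example have complex multiplication, or be
zero).

Proof. By the theory of extremal elements of Lie algebras, or by the isolated components (see
`MP_5f0950_ag.LocalMonodromyProducts`), and the first fundamental theorem a potentially semi-invariant
class on the product of a power of `X_i` with `A` is a combination of products of algebraic classes of the
power with potentially semi-invariant classes of `A`. If `x` is a potentially semi-invariant class of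
`B`, then so is `g^* x`, hence `g^* x` belongs to `C(T)`, and `x = g_*(a g^* x)` for an algebraic class `a`.
-/

universe u

namespace Pool.Agent.Results.MP_90d181_ag.DominatedProducts

open Pool.Agent.H914 Pool.Agent.H281R3.HT Pool.Agent.TH125.Gal Pool.Agent.V11219.Min
  Pool.Agent.V11219.Cls Pool.Agent.V11219.Dm

/-- **The Tate conjecture for varieties dominated by products with local conditions.** -/
theorem result {k : Type u} [Field k] {𝒱 : VarClass k} {ops : CycleOps 𝒱}
    (W : WeilCohomology.{u, 0} ops) [IsAlgClosed W.K] {Γ : Type} [Group Γ] (χ : CharOf W Γ)
    (C : Classes W) (hC : ClassSystem W C)
    {ι : Type} (X : ι → GVar W Γ) (Z : GVar W Γ) (h : LocalFam χ X Z)
    (S : Set ι) (T : GVar W Γ) (hT : Tow X Z S T) :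
    AllDominated χ C T ↔ TateIn χ C Z :=
  all_local hC h hT

end Pool.Agent.Results.MP_90d181_ag.DominatedProducts
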