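import Mathlib
import Pool.Agent.V1168.AB.Main

/-!
# The Tate conjecture over number fields for the products of **every** abelian variety with abelian
varieties given by one Frobenius element: the exceptional factors have small dimension

Let `K i` (`i` in a set `I`, which may be **infinite**) be CM fields with pair flips (`PairFlips`): for
any two complex embeddings `φ` of `K i` and `ψ` of `K k` (with `i = k` or not) which are neither equal
nor complex conjugate, some automorphism of `ℂ` is the identity on `φ (K i)` and the complex conjugation
on `ψ (K k)`. One CM field `K` of degree `2 g` has this property if the Galois group of its normal
closure is the largest possible one (of order `2 ^ g g!`), or contains, for each pair of complex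
conjugate embeddings, an element which exchanges them and fixes all other embeddings, or contains all
the automorphisms that exchange two pairs in this sense (`g > 2`); several such fields with linearly
disjoint normal closures have it together (for example there are infinite families of imaginary
quadratic fields). We fix an isomorphism `ν` of the algebraic closure of `ℚ_p` with `ℂ`; it defines a
`p`-adic valuation `v` of `ℂ` with `v p = 1`. Let `π i` be a Weil number for `q = p ^ a` which
generates `K i` and whose slope vector, the function `2 v (φ π) - a` on the complex embeddings `φ` (`slopeVector`), is not zero
(there are no other conditions on the slopes).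

Let `k₁` be a number field with Galois group `Γ`.
For a finite subset `J` of `I` let `A` be an abelian variety over `k₁`, with
good reduction at ONE place, the residue field having `q = p ^ a` elements, such that the characteristic polynomial of the
Frobenius element `γ` on the Tate module `V = V_ℓ (A)`, `ℓ ≠ p`, is the product of the minimal
polynomials of the `π i`, `i` in `J`. So `A` has
the dimension `∑ [K i : ℚ] / 2`, the sum over `J`. Let `B` be **any** abelian variety over `k₁` with the Tate module `W`, and
`M = H^1(B, ℚ_ℓ)^{⊗ b}(c)` (`cohomologyPower`); the twisted cohomology groups of the powers `B ^ n` are
direct sums of subrepresentations of these.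

Let `Ω` be a finite set of complex numbers, stable under the automorphisms of `ℂ`, whose elements are
nonzero and lie in CM fields or in totally real fields (`IsStable`). A number `ρ` is generated by `Ω`
(`Generated p Ω`) if it is not zero and a power of it is a product of powers of elements of `Ω` and of a
power of `p`. We suppose that
the eigenvalues of `γ` on `M` are roots of a rational polynomial, not zero, all of whose complex roots
are generated by `Ω`. **Such a set `Ω` exists for every `B`**: if `B` has good reduction at the place it is
the set of the Frobenius eigenvalues on `H^1` of the reduction, which has at most `2 dim B` elements and
is the same for all powers of `B`; for bad reduction take the eigenvalues on the weight graded pieces.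

Then (`ClassesSplit`) **the classes in `H^j(A ^ r) ⊗ M` which are fixed by an open subgroup of `Γ` are
zero for odd `j`, and linear combinations of products of `m` Tate classes of degree two on `A ^ r` (that
is, of divisor classes, by Faltings) and of Tate classes in `M(-m)` for `j = 2 m`.** The classes in
`H^j(A ^ r) ⊗ M` are the alternating maps of `j` variables from `V ^ r` to `M`. So for all these `A` and
`B` **the Tate conjecture for `A ^ r × B` (all `r`, over all finite extensions, all codimensions) is
equivalent to the Tate conjecture for `B`.** The hypotheses on `V` (`IsPolarised`) are the Weil pairing
and the semisimplicity (Faltings). Nothing is assumed on the semisimplicity of `M`.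

**The theorem: there is a finite subset `S` of `I` with `∑ [K i : ℚ] ≤ |Ω|`, the sum over `i` in `S`,
such that this holds for all finite sets `J` disjoint from `S` and all `k₁`, `ℓ`, `A`, `B` and `M` as
above.** The set `S` depends only on `Ω` and the `π i`. So **the exceptional factors for `B` have
together at most the dimension `|Ω| / 2`, which is at most `dim B`**. The bound is sharp: for `B = A`
(or its powers) `Ω` has `2 dim A` elements, and all `i` in `J` are exceptional, as there are Tate
classes in `H^1(A) ⊗ H^1(B)(1)`. For instance, for all `n`, `r` and all `A` without factors in `S` the
Tate conjecture for `A ^ r × B ^ n` is equivalent to the one for `B ^ n`; and it is true for `A ^ r × B`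
for all abelian varieties `B` of dimension at most three.

The results of the starting files of this kind, for example `MP_2a05c8_ag.AllCMTypesTimesSmooth`, are
about varieties whose Frobenius eigenvalues are unrelated to the fields `K i`, or have small degree
or small slopes. **Here the Frobenius eigenvalues of `B` are arbitrary**: they may generate the same
fields `K i`, or fields containing them. (A relative for Hodge classes is
`MP_4e1cf2_ag.ArbitraryFactor`.)

The proof. Let `x i` be the slope vectors of the `π i`. If a power of a number `ρ` generated by `Ω` is the
corresponding power of a product of conjugates of the `π i`, let `n i φ` be the multiplicity of `φ`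
minus the one of the conjugate of `φ`. Computing valuations, the function `σ ↦ ∑ n i φ * x i (σ φ)` of
the automorphisms `σ` of `ℂ` (the sum over all `i` and all embeddings `φ`) is in the space `F` spanned by
the functions `σ ↦ v (σ β) - v (conj (σ β))`, `β` in `Ω`. This space is stable under translations. So we
can average over the automorphisms which fix a given embedding `φ₀` of `K i`: by the pair flips the
average of an odd function is zero except at `φ₀` and its conjugate, so that the function
`σ ↦ x i (σ φ₀)` is in `F` if `n i φ₀` is not zero, and then the same is true for all embeddings of this
field `K i` (`EF.orb_mem`). Let `S` be the set of all `i` such that these functions are in `F`. Again by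
the pair flips, the functions `σ ↦ x i (σ φ)`, for all `i` and one `φ` out of each complex conjugate
pair, are linearly independent. As the dimension of `F` is at most `|Ω| / 2` (conjugate `β` give
opposite functions), `∑ [K i : ℚ] / 2`, the sum over `S`, is at most `|Ω| / 2`
(`EF.exists_exceptional`), and outside of `S` all `n i` are zero (`EF.forces_of`). So the components
of a Tate class in the eigenspaces of `γ` belong to products of pairs of conjugate numbers; by the
semisimplicity, and as the angle rank is maximal (the case `Ω = ∅`), the Lie algebra of the
endomorphisms of `V` which kill all the components is over a finite extension a product of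
symplectic and general linear Lie algebras, and the first fundamental theorem of invariant theory
gives the result (`EV.split_of_forces`, as in the starting files H204R3, Y137 and Y1.TS).
-/

set_option autoImplicit false

namespace Pool.Agent.Results.MP_90d181_ag.EveryVarietyTimes

open NumberField IntermediateField Pool.Agent.V1168.EF Pool.Agent.V1168.AB
open Pool.Agent.V1168.EV (PairFlips slopeVector)

/-- **For every abelian variety `B` over a number field, whose Frobenius eigenvalues at
one place are generated by the stable finite set `Ω`, and all abelian varieties `A` given by Weil numbers in a family of CM fields with pair
flips, without factors in an exceptional set `S` with `∑ [K i : ℚ] ≤ |Ω|`: the Tate classes on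
`A ^ r × B` are linear combinations of products of divisor classes on `A ^ r` and Tate classes on
`B`**, so that the Tate conjecture for `A ^ r × B` is equivalent to the one for `B`. -/
theorem result {p : ℕ} [Fact p.Prime] (ν : PadicAlgCl p ≃+* ℂ) {I : Type}
    (K : I → Type) [∀ i, Field (K i)] [∀ i, NumberField (K i)] [∀ i, IsCMField (K i)]
    (hK : PairFlips K) (a : ℕ) (π : ∀ i, K i) (hgen : ∀ i, ℚ⟮π i⟯ = ⊤)
    (hπ : ∀ i, π i * IsCMField.complexConj (K i) (π i) = (p : K i) ^ a)
    (hs : ∀ i, ∃ φ, slopeVector ν a (π i) φ ≠ 0) (Ω : Finset ℂ) (hΩ : IsStable Ω) :
    ∃ S : Finset I, ∑ i ∈ S, Module.finrank ℚ (K i) ≤ Ω.card ∧ ∀ J : Finset I, Disjoint J S →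
      AbelianClassesSplit (Generated p Ω) p a (fun i : {i // i ∈ J} => K i.1)
        (fun i => π i.1) := by
  obtain ⟨S, hS, h⟩ := exists_factors_split ν hK hgen hπ hs hΩ
  exact ⟨S, hS, fun J hJ => abelian_of_split (h J hJ)⟩

end Pool.Agent.Results.MP_90d181_ag.EveryVarietyTimes
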