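import Mathlib
import Pool.Agent.V1168.AB.Main

/-!
# The Tate conjecture over number fields for the products of **every** abelian variety with abelian
varieties with one Frobenius element outside of finitely many lines of slope vectors

Let `K i` (`i` in a finite set) be CM fields with pair flips (`PairFlips`): for any two complex
embeddings `φ` of `K i` and `ψ` of `K k` (with `i = k` or not) which are neither equal nor complex
conjugate, some automorphism of `ℂ` is the identity on `φ (K i)` and the complex conjugation on
`ψ (K k)`. One CM field `K` of degree `2 g` has this property if the Galois group of its normal closure
is the largest possible one (of order `2 ^ g g!`), or contains, for each pair of complex conjugate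
embeddings, an element which exchanges them and fixes all other embeddings, or contains all the
automorphisms that exchange two pairs in this sense (`g > 2`); several such fields with linearly
disjoint normal closures have it together. We fix an isomorphism `ν` of the algebraic closure of `ℚ_p`
with `ℂ`; it defines a `p`-adic valuation `v` of `ℂ` with `v p = 1`. The slope vector of a Weil number
`π` for `p ^ a` in `K i` is the function `2 v (φ π) - a` on the complex embeddings `φ` of `K i`
(`slopeVector`); it is odd: its values at conjugate embeddings are opposite.

Let `k` be a number field, `A` an abelian variety over `k`, and let `γ` be a Frobenius element of the
Galois group `Γ` of `k` at **one** place of good reduction, the residue field having `p ^ a` elements,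
for which the characteristic polynomial on the Tate module `V = V_ℓ (A)`, `ℓ ≠ p`, is the product of the
minimal polynomials of Weil numbers `π i` which generate the fields `K i`. We suppose that the slope
vectors of the `π i` are not zero. Let `B` be **any** abelian variety over `k` with the Tate module `W`, and `M = H^1(B, ℚ_ℓ)^{⊗ b}(c)`
(`cohomologyPower`; the twisted cohomology groups of the powers of `B` are sums of summands of these), such
that the eigenvalues of `γ` on `M` are roots of a rational polynomial, not zero, all of whose complex
roots come from the finite set `Ω` of complex numbers. A number `ρ` comes from `Ω` (`From p Ω`) if it is
not zero and a power of it is the product of a power of a conjugate of an element of `Ω`, or of `1`,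
and of a power of `p`. **Such a finite set `Ω` exists for every `B`** with good reduction at the place:
take one root of each irreducible factor of the characteristic polynomials of Frobenius on the
cohomology of the reduction. (If the reduction of `B` is bad, take the polynomials for the weight
graded pieces.)

Then (`ClassesSplit`) **the classes in `H^j(A ^ r) ⊗ M` which are fixed by an open subgroup of `Γ` are
zero for odd `j`, and linear combinations of products of `m` Tate classes of degree two on `A ^ r` (that
is, of divisor classes, by Faltings) and of Tate classes in `M(-m)` for `j = 2 m`.** The classes in
`H^j(A ^ r) ⊗ M` are the alternating maps of `j` variables from `V ^ r` to `M`. So for all these `A` and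
`B` **the Tate conjecture for `A ^ r × B` (all `r`, over all finite extensions, all codimensions) is
equivalent to the Tate conjecture for `B`.** For instance it is true for `A ^ r × B` if `dim B ≤ 3`. The hypotheses on `V` (`IsPolarised`) are the Weil pairing
and the semisimplicity (Faltings). Nothing is assumed on the semisimplicity of `M`.

**The theorem: there is a set `E` of at most `|Ω|` lines, each of them in the space of the functions on
the complex embeddings of one of the fields `K i`, such that this holds for all `ℓ`, `a`, `k`, `A`, `B`
and `M` as above for which the slope vectors of the `π i` are not on the lines in `E`.** The lines
depend only on `ν`, the fields and `Ω`. So for one field `K` and a given `B` with its Frobenius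
polynomials at a place, all the Weil numbers in `K` are allowed, except those whose slope vector is a
multiple of one of at most `|Ω|` vectors in the `g`-dimensional space of the odd functions; for
instance, at most `2 |Ω|` of the `2 ^ g` slope types of the ordinary Weil numbers in `K` are exceptional
for `B`. (Exceptions are necessary: if `B = A` then there are Tate classes in `H^1(A) ⊗ H^1(B)(1)`.)
My `EveryVarietyTimes` for this problem is about one given family of Weil numbers (possibly in
infinitely many fields); here all Weil numbers in the fields `K i` are considered at the same time, and
`Ω` is any finite set.

The results of the starting files of this kind, for example `MP_2a05c8_ag.AllCMTypesTimesSmooth`, are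
about varieties whose Frobenius eigenvalues are unrelated to the fields `K i`, or have small degree
or small slopes. **Here the Frobenius eigenvalues of `B` are arbitrary**: they may generate the same
fields `K i`, or fields containing them. For instance, let the Frobenius eigenvalues of `B` at the
place be in the normal closure of `K = ℚ(π)`: if `A` is ordinary at the place then only one pair of
slope types for each element of the set `Ω` is exceptional.

The proof. Let `x i` be the slope vectors of the `π i`, and let `ρ` be a number that comes from
`β ∈ Ω`. If a power of `ρ` is the corresponding power of a product of conjugates of the `π i`, then,
computing valuations, for all automorphisms `σ` of `ℂ` we have `∑ n i φ * x i (σ φ) = c₁ v (σ β) + c₂`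
(the sum over all `i` and all embeddings `φ`), where `n i φ` is the multiplicity of `φ` minus the one
of the conjugate of `φ`. Take the odd part, and average over the automorphisms which fix a given
embedding `φ₀` of `K i`: by the pair flips the average of an odd function is zero except at `φ₀` and
its conjugate, so that `n i (σ⁻¹ φ₀) * x i φ₀` is determined by `c₁` and `β` (`EV.key`). For `β = 1` all
these numbers are zero: the angle rank is maximal (`EV.angle_of`). In general it follows that, for each
`i` with `n i` not zero, `x i` is determined up to a factor by `β`: this is the exceptional line of `β`
(`EV.exists_lines`). Outside of the lines all `n i` are zero: the products of conjugates of the `π i`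
which agree with an eigenvalue of `γ` on `M` up to a root of unity are products of pairs of conjugate
numbers (`EV.forces_of`). So the components of a Tate class in the eigenspaces of `γ` are of this
kind; by the semisimplicity, and as the angle rank is maximal, the Lie algebra of the endomorphisms
of `V` which kill all the components is over a finite extension a product of symplectic and general
linear Lie algebras, and the first fundamental theorem of invariant theory gives the result
(`EV.split_of_forces`, as in the starting files H204R3, Y137 and Y1.TS).
-/

set_option autoImplicit false

namespace Pool.Agent.Results.MP_90d181_ag.ExceptionalSlopeLines

open NumberField Pool.Agent.V1168.EV Pool.Agent.V1168.AB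

/-- **The Tate conjecture for `A ^ r × B` is equivalent to the one for `B`, for every abelian variety
`B` whose Frobenius eigenvalues at one place come from the finite set `Ω`, and all abelian varieties `A` for
which the slope vectors of the Frobenius element are outside of at most `|Ω|` lines**: the Tate classes
on `A ^ r × B` are linear combinations of products of divisor classes on `A ^ r` and Tate classes
on `B`. -/
theorem result {p : ℕ} [Fact p.Prime] (ν : PadicAlgCl p ≃+* ℂ) {I : Type} [Fintype I]
    (K : I → Type) [∀ i, Field (K i)] [∀ i, NumberField (K i)] [∀ i, IsCMField (K i)]
    (hK : PairFlips K) (Ω : Finset ℂ) :
    ∃ E : Finset (Σ i, ((K i →+* ℂ) → ℝ)), E.card ≤ Ω.card ∧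
      ForAllWeilOutside ν K (fun a π => AbelianClassesSplit (From p Ω) p a K π) E := by
  obtain ⟨E, hE, h⟩ := exists_lines_split ν K hK Ω
  exact ⟨E, hE, fun a π ha hgen hw hne hl => abelian_of_split' (h a π ha hgen hw hne hl)⟩

end Pool.Agent.Results.MP_90d181_ag.ExceptionalSlopeLines
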