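import Mathlib
import Pool.Agent.V11219.GkMain

/-!
# The Tate conjecture for products `A × Y` of abelian varieties over number fields, where the toric
ranks of `Y` are smaller than those of `A`

Let `k` be a number field, `Γ` its Galois group and `K` the algebraic closure of `ℚ_ℓ`. Let `A_i`
(`i` in a finite set) be abelian varieties over `k` with `End (A_i) = ℤ` over the algebraic closure
(or, more generally, with real multiplication: then take all the pieces of `H^1`), pairwise not isogenous
over the algebraic closure, `V_i = H^1(A_i) ⊗ K` with the polarization forms `B_i`, and let `Y` be an
**arbitrary abelian variety** over `k`, `U = H^1(Y) ⊗ K` with a polarization form `C`. All multipliers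
are the cyclotomic character. By Faltings the `V_i` are strongly irreducible and not isomorphic up to
twists. Let `M` be any other representation of `Γ` of finite dimension: `K`, or the cohomology of any
variety `Z`.

Let `v` be a place, not dividing `ℓ`, where the `A_i` and `Y` have semistable reduction (and `Z` good
reduction, or `M = K`). The elements `γ` of the inertia group have the property
`(γ - 1) ^ 2 = 0` on all `V_i` and on `U`, and the ranks of `γ - 1` for a generator are the toric
ranks of the `A_i` and of `Y` at `v`. **Several `A_i` and `Y` can have bad reduction at the same
place.** We suppose that, for every `i`,

* (small defects) the toric ranks of `A_i` are not all multiples of a common prime, in one of the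
  following senses: there is a place `v` such that the toric rank at `v` and the multiplicities of the
  nonzero eigenvalues of the operators `(γ - 1) (γ' - 1)` on `V_i` have no common prime factor or one
  of them is two; or the toric ranks of `A_i` at all places (and these multiplicities) have no
  common prime factor, and the conjugates of one inertia group act irreducibly on `V_i`;
* (comparison) at one place the toric rank of `Y` is smaller than the toric rank of `A_i`.

Then **the Tate classes on `A × Y × Z`, for all products `A` of powers of the `A_i`, are combinations of
products of divisor classes on `A` and Tate classes on `Y × Z`**; so the Tate conjecture for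
`A × Y × Z` is equivalent to the Tate conjecture for `Y × Z`, in all codimensions and over all
finite extensions of `k`. There is no hypothesis on the endomorphisms, the dimension or the
Hodge group of `Y`. For instance, if some `A_i` has a place where its reduction is totally
degenerate, the second condition for `A_i` is true for all `Y` with `dim Y < dim A_i`; and if all
`A_i` have a place where the toric rank is one and `Y` has good reduction, both conditions are true.

In the formal statement the classes in the cohomology of a product of powers of the `A_i`, of a power of
`Y` and of `Z` are the multilinear maps `f` of some variables in `⊕ V_i` and some variables in `U`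
with values in `M` (`H^*` of an abelian variety is the exterior algebra of `H^1`), and the Tate
classes over a finite extension are the equivariant maps for an open subgroup `Δ`. The theorem
says that the equivariant maps are exactly the combinations of the products of the values of forms `B_i` on
pairs of variables and of a multilinear map `w` of the variables in `U` with values in `M`, which is
equivariant for `Δ` up to the multipliers (a Tate class on `Y × Z`).

The proof. The pairs `(X, X')` of families `X` of operators on the `V_i` and operators `X'` on
`U`, skew for the forms, which kill all equivariant maps, form a Lie algebra; it contains `γ - 1` for
the elements `γ` above. The projections to the `V_i` are the whole symplectic Lie algebras, by the theory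
of extremal elements. If the projection to two of the `V_i` is the graph of a bijection, this
bijection comes from an isomorphism of the spaces, which is equivariant up to scalars (here this
theorem on automorphisms of the symplectic Lie algebras is proved by calculations with elements of
rank one). So the projection to all `V_i` is the product of the symplectic Lie algebras. The
elements `γ X γ - …`, that is `n X n` for `n = γ - 1`, form a space of dimension `r (r + 1) / 2` in the
component `i` and at most `s (s + 1) / 2` in the component `U`, where `r` and `s` are the ranks of `n`;
since `s < r`, a nonzero element has the component zero in `U`, and generates the symplectic Lie algebra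
of `V_i`. The first fundamental theorem for the symplectic groups gives the form of the maps.
-/

set_option autoImplicit false

namespace Pool.Agent.Results.MP_90d181_ag.SmallerToricRank

open Module Pool.Agent.V11219 Pool.Agent.V11219.Gk

/-- **The classes on the products with a representation of smaller unipotent ranks.** -/
theorem result {K : Type} [Field K] [CharZero K] [IsAlgClosed K] {Γ : Type} [Group Γ]
    {ι : Type} [Fintype ι] {V : ι → Type} [∀ i, AddCommGroup (V i)]
    [∀ i, Module K (V i)] [∀ i, FiniteDimensional K (V i)] {U : Type} [AddCommGroup U]
    [Module K U] [FiniteDimensional K U] {M : Type} [AddCommGroup M]
    [Module K M] [FiniteDimensional K M] (μ : ι → Γ →* K) (ρ : ∀ i, Representation K Γ (V i))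
    (B : ∀ i, V i →ₗ[K] V i →ₗ[K] K) (ν : Γ →* K) (τ : Representation K Γ U)
    (C : U →ₗ[K] U →ₗ[K] K) (σ : Representation K Γ M) (h : SemistableFamily μ ρ B ν τ C σ)
    {S S' : Type} [Finite S] [Finite S'] (Δ : Subgroup Γ) (hΔ : Δ.FiniteIndex)
    (f : MultilinearMap K (fun _ : S => ∀ i, V i) (MultilinearMap K (fun _ : S' => U) M)) :
    (∀ g ∈ Δ, ∀ x y, f (fun s i => ρ i g (x s i)) (fun s => τ g (y s)) = σ g (f x y)) ↔
      Sm.ClassesSplit μ B (coef τ σ S') Δ f := by
  classical
  have := Fintype.ofFinite S
  have := Fintype.ofFinite S'
  exact eqv_iff h hΔ f

end Pool.Agent.Results.MP_90d181_ag.SmallerToricRank
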